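import Pool.Agent.Helper79.TL.Core

/-!
# TL-A6: `Y 0 (w + s w) = - (ξ + ξ ^ 4) • (w + s w)` in characteristic three
-/

set_option autoImplicit false
set_option linter.unusedSectionVars false

open Module

namespace Pool.Agent.Helper79.TL.A6

variable {F : Type} [Field F] [CharP F 3] {M : Type} [AddCommGroup M] [Module F M]
  {t s : Module.End F M} {Y : Fin 3 → Module.End F M}

/-- (minus) the sum of `ξ^{-k} t^k`: the projection onto the `ξ`-eigenspace of `t` -/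
def Pr (t : Module.End F M) (ξ : F) : Module.End F M :=
  - ∑ k ∈ Finset.range 5, ξ ^ (4 * k) • t ^ k

omit [CharP F 3] in
lemma Pr_apply (t : Module.End F M) (ξ : F) (m : M) : Pr t ξ m =
    - (m + ξ ^ 4 • t m + ξ ^ 8 • (t ^ 2) m + ξ ^ 12 • (t ^ 3) m + ξ ^ 16 • (t ^ 4) m) := by
  simp [Pr, Finset.sum_range_succ]

omit [CharP F 3] in
lemma Pr_t (h5 : t ^ 5 = 1) (ξ : F) (hξ : ξ ^ 5 = 1) (m : M) : Pr t ξ (t m) = ξ • Pr t ξ m := by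
  have h1 : (t ^ 2) m = t (t m) := by rw [pow_two]; rfl
  have h2 : (t ^ 3) m = t (t (t m)) := by rw [pow_succ, pow_two]; rfl
  have h3 : (t ^ 4) m = t (t (t (t m))) := by rw [pow_succ, pow_succ, pow_two]; rfl
  have h4 : t (t (t (t (t m)))) = m := by
    have : (t ^ 5) m = t (t (t (t (t m)))) := by rw [pow_succ, pow_succ, pow_succ, pow_two]; rfl
    rw [← this, h5]; rfl
  have h1' : (t ^ 2) (t m) = t (t (t m)) := by rw [pow_two]; rfl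
  have h2' : (t ^ 3) (t m) = t (t (t (t m))) := by rw [pow_succ, pow_two]; rfl
  have h3' : (t ^ 4) (t m) = t (t (t (t (t m)))) := by rw [pow_succ, pow_succ, pow_two]; rfl
  rw [Pr_apply, Pr_apply, h1, h2, h3, h1', h2', h3', h4]
  have e1 : ξ ^ 16 = ξ := by
    calc ξ ^ 16 = (ξ ^ 5) ^ 3 * ξ := by ring
      _ = ξ := by rw [hξ]; ring
  simp only [smul_neg, smul_add, smul_smul]
  have e2 : ξ * ξ ^ 4 = 1 := by rw [← hξ]; ring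
  have e3 : ξ * ξ ^ 8 = ξ ^ 4 := by
    calc ξ * ξ ^ 8 = ξ ^ 5 * ξ ^ 4 := by ring
      _ = ξ ^ 4 := by rw [hξ]; ring
  have e4 : ξ * ξ ^ 12 = ξ ^ 8 := by
    calc ξ * ξ ^ 12 = ξ ^ 5 * ξ ^ 8 := by ring
      _ = ξ ^ 8 := by rw [hξ]; ring
  have e5 : ξ * ξ ^ 16 = ξ ^ 12 := by
    calc ξ * ξ ^ 16 = ξ ^ 5 * ξ ^ 12 := by ring
      _ = ξ ^ 12 := by rw [hξ]; ring
  rw [e2, e3, e4, e5, one_smul, e1]
  abel

omit [CharP F 3] in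
lemma Pr_tk (h5 : t ^ 5 = 1) (ξ : F) (hξ : ξ ^ 5 = 1) (k : ℕ) (m : M) :
    Pr t ξ ((t ^ k) m) = ξ ^ k • Pr t ξ m := by
  induction k generalizing m with
  | zero => simp
  | succ n ih =>
    have : (t ^ (n + 1)) m = (t ^ n) (t m) := by rw [pow_succ]; rfl
    rw [this, ih, Pr_t h5 ξ hξ, smul_smul, pow_succ]

omit [CharP F 3] in
lemma tk_eig {a : F} {v : M} (hv : t v = a • v) (k : ℕ) : (t ^ k) v = a ^ k • v := by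
  induction k with
  | zero => simp
  | succ n ih =>
    have : (t ^ (n + 1)) v = (t ^ n) (t v) := by rw [pow_succ]; rfl
    rw [this, hv, map_smul, ih, smul_smul, pow_succ, mul_comm]

set_option maxHeartbeats 1000000 in
/-- TL-A6 -/
theorem fside_Y0 (h : HMod t s Y) (hgen : ∀ u : M, u ≠ 0 → Gen t s Y u) (ξ : F) (hξ : ξ ^ 5 = 1)
    (hξ1 : ξ ≠ 1) (w : M) (hw : w ≠ 0) (htw : t w = ξ • w)
    (h0 : Pr t ξ (Y 0 w) = (ξ + ξ ^ 4) • w) (h1 : Pr t ξ (Y 1 w) = (- (1 + (ξ + ξ ^ 4))) • w)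
    (h2 : Pr t ξ (Y 2 w) = - w) : Y 0 (w + s w) = (- (ξ + ξ ^ 4)) • (w + s w) := by
  have h3 : (3 : F) = 0 := by exact_mod_cast CharP.cast_eq_zero F 3
  have hs : 1 + ξ + ξ ^ 2 + ξ ^ 3 + ξ ^ 4 = 0 := by
    have : (ξ - 1) * (1 + ξ + ξ ^ 2 + ξ ^ 3 + ξ ^ 4) = 0 := by linear_combination hξ
    rcases mul_eq_zero.1 this with h | h
    · exact absurd (sub_eq_zero.1 h) hξ1
    · exact h
  have h22 : (2 : F) ≠ 0 := by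
    intro h2
    have : (1 : F) = 0 := by linear_combination h3 - h2
    exact one_ne_zero this
  -- `t s = s t ^ 4`
  have hts : t * s = s * t ^ 4 := by
    calc t * s = t * s * 1 := by rw [mul_one]
      _ = t * s * (t ^ 5) := by rw [h.t5]
      _ = t * (s * t) * t ^ 4 := by noncomm_ring
      _ = t * (t ^ 4 * s) * t ^ 4 := by rw [h.st]
      _ = t ^ 5 * s * t ^ 4 := by noncomm_ring
      _ = s * t ^ 4 := by rw [h.t5, one_mul]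
  have htsw : t (s w) = ξ ^ 4 • s w := by
    have : t (s w) = (t * s) w := rfl
    rw [this, hts]
    show s ((t ^ 4) w) = _
    rw [tk_eig htw, map_smul]
  have hPw : Pr t ξ w = w := by
    rw [Pr_apply, tk_eig htw, tk_eig htw, tk_eig htw, htw]
    match_scalars
    linear_combination (-(1 + (ξ ^ 5 + 1)  + (ξ ^ 10 + ξ ^ 5 + 1) + (ξ ^ 15 + ξ ^ 10 + ξ ^ 5 + 1))) * hξ - 2 * h3
  have hPsw : Pr t ξ (s w) = 0 := by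
    rw [Pr_apply, tk_eig htsw, tk_eig htsw, tk_eig htsw, htsw]
    match_scalars
    linear_combination ((1) * ξ ^ 1 + (-1) * ξ ^ 5 + (1) * ξ ^ 6 + (-1) * ξ ^ 8 + (1) * ξ ^ 9 + (-1) * ξ ^ 10 + (1) * ξ ^ 11 + (-1) * ξ ^ 13 + (1) * ξ ^ 14 + (-1) * ξ ^ 15 + (1) * ξ ^ 17 + (-1) * ξ ^ 18 + (1) * ξ ^ 19 + (-1) * ξ ^ 20 + (1) * ξ ^ 22 + (-1) * ξ ^ 23 + (1) * ξ ^ 27 + (-1) * ξ ^ 28) * hs - hs
  have hssw : s (s w) = w := by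
    have : s (s w) = (s * s) w := rfl
    rw [this, h.ss]; rfl
  obtain ⟨p, hp⟩ : ∃ p, p = w + s w := ⟨_, rfl⟩
  have hswp : s p = p := by rw [hp, map_add, hssw, add_comm]
  have hPp : Pr t ξ p = w := by rw [hp, map_add, hPw, hPsw, add_zero]
  have hY0s : ∀ m, Y 0 (s m) = Y 0 m := fun m => by
    have : Y 0 (s m) = (Y 0 * s) m := rfl
    rw [this, h.Y0s]
  have hY1s : ∀ m, Y 1 (s m) = Y 1 m := fun m => by
    have : Y 1 (s m) = (Y 1 * s) m := rfl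
    rw [this, h.Y1s]
  have hY2s : ∀ m, Y 2 (s m) = - Y 2 m := fun m => by
    have : Y 2 (s m) = (Y 2 * s) m := rfl
    rw [this, h.Y2s]; rfl
  have L0 : ∀ a b : ℕ, Pr t ξ ((t ^ a * Y 0 * t ^ b) p) =
      (ξ ^ a * (ξ ^ b + ξ ^ (4 * b)) * (ξ + ξ ^ 4)) • w := by
    intro a b
    have : (t ^ a * Y 0 * t ^ b) p = (t ^ a) (Y 0 ((t ^ b) p)) := rfl
    rw [this, Pr_tk h.t5 ξ hξ, hp, map_add, tk_eig htw, tk_eig htsw, map_add, map_smul, map_smul, hY0s,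
      map_add, map_smul, map_smul, h0]
    match_scalars
    ring
  have L1 : ∀ a b : ℕ, Pr t ξ ((t ^ a * Y 1 * t ^ b) p) =
      (ξ ^ a * (ξ ^ b + ξ ^ (4 * b)) * (- (1 + (ξ + ξ ^ 4)))) • w := by
    intro a b
    have : (t ^ a * Y 1 * t ^ b) p = (t ^ a) (Y 1 ((t ^ b) p)) := rfl
    rw [this, Pr_tk h.t5 ξ hξ, hp, map_add, tk_eig htw, tk_eig htsw, map_add, map_smul, map_smul, hY1s,
      map_add, map_smul, map_smul, h1]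
    match_scalars
    ring
  have L2 : ∀ a b : ℕ, Pr t ξ ((t ^ a * Y 2 * t ^ b) p) =
      (ξ ^ a * (ξ ^ b - ξ ^ (4 * b)) * (-1)) • w := by
    intro a b
    have : (t ^ a * Y 2 * t ^ b) p = (t ^ a) (Y 2 ((t ^ b) p)) := rfl
    rw [this, Pr_tk h.t5 ξ hξ, hp, map_add, tk_eig htw, tk_eig htsw, map_add, map_smul, map_smul, hY2s,
      map_add, map_smul, map_smul, map_neg, h2]
    match_scalars
    ring
  obtain ⟨u, hu⟩ : ∃ u, u = Y 0 p + (ξ + ξ ^ 4) • p := ⟨_, rfl⟩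
  have hsY0 : ∀ m, s (Y 0 m) = Y 0 m := fun m => by
    have : s (Y 0 m) = (s * Y 0) m := rfl
    rw [this, h.sY0]
  have hsu : s u = u := by rw [hu, map_add, map_smul, hswp, hsY0]
  have e010 : Y 0 * t * Y 0 = - t ^ 1 * Y 0 * t ^ 1 - t ^ 1 * Y 0 * t ^ 4 - t ^ 4 * Y 0 * t ^ 1 - t ^ 4 * Y 0 * t ^ 4 + t ^ 1 * Y 1 * t ^ 2 + t ^ 1 * Y 1 * t ^ 3 + t ^ 4 * Y 1 * t ^ 2 + t ^ 4 * Y 1 * t ^ 3 + t ^ 2 * Y 1 * t ^ 1 + t ^ 2 * Y 1 * t ^ 4 + t ^ 3 * Y 1 * t ^ 1 + t ^ 3 * Y 1 * t ^ 4 + t ^ 2 * Y 2 * t ^ 2 - t ^ 2 * Y 2 * t ^ 3 - t ^ 3 * Y 2 * t ^ 2 + t ^ 3 * Y 2 * t ^ 3 := by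
    rw [h.r010]; noncomm_ring
  have f010 : Pr t ξ ((Y 0 * t ^ 1) u) = 0 := by
    have hh : (Y 0 * t ^ 1) u = (Y 0 * t * Y 0) p + (ξ + ξ ^ 4) • (t ^ 0 * Y 0 * t ^ 1) p := by
      rw [hu, map_add, map_smul]; simp only [pow_zero, one_mul, pow_one]; rfl
    rw [hh, e010]
    simp only [LinearMap.add_apply, LinearMap.sub_apply, LinearMap.neg_apply, map_add, map_sub, map_neg, map_smul, L0, L1, L2, neg_mul]
    match_scalars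
    linear_combination ((-9) * ξ ^ 0 + (9) * ξ ^ 1 + (-2) * ξ ^ 3 + (-3) * ξ ^ 4 + (-4) * ξ ^ 5 + (4) * ξ ^ 6 + (-3) * ξ ^ 7 + (1) * ξ ^ 8 + (-1) * ξ ^ 9 + (-4) * ξ ^ 10 + (3) * ξ ^ 11 + (-1) * ξ ^ 12 + (-1) * ξ ^ 15 + (-1) * ξ ^ 17 + (-1) * ξ ^ 20) * hs + ((3) * ξ ^ 0) * h3
  have e020 : Y 0 * t ^ 2 * Y 0 = - t ^ 2 * Y 0 * t ^ 2 - t ^ 2 * Y 0 * t ^ 3 - t ^ 3 * Y 0 * t ^ 2 - t ^ 3 * Y 0 * t ^ 3 - t ^ 1 * Y 1 * t ^ 1 - t ^ 1 * Y 1 * t ^ 4 - t ^ 4 * Y 1 * t ^ 1 - t ^ 4 * Y 1 * t ^ 4 - t ^ 1 * Y 2 * t ^ 2 + t ^ 1 * Y 2 * t ^ 3 + t ^ 4 * Y 2 * t ^ 2 - t ^ 4 * Y 2 * t ^ 3 - t ^ 2 * Y 2 * t ^ 1 + t ^ 2 * Y 2 * t ^ 4 + t ^ 3 * Y 2 * t ^ 1 - t ^ 3 * Y 2 * t ^ 4 := by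
    rw [h.r020]; noncomm_ring
  have f020 : Pr t ξ ((Y 0 * t ^ 2) u) = 0 := by
    have hh : (Y 0 * t ^ 2) u = (Y 0 * t ^ 2 * Y 0) p + (ξ + ξ ^ 4) • (t ^ 0 * Y 0 * t ^ 2) p := by
      rw [hu, map_add, map_smul]; simp only [pow_zero, one_mul, pow_one]; rfl
    rw [hh, e020]
    simp only [LinearMap.add_apply, LinearMap.sub_apply, LinearMap.neg_apply, map_add, map_sub, map_neg, map_smul, L0, L1, L2, neg_mul]
    match_scalars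
    linear_combination ((-3) * ξ ^ 0 + (3) * ξ ^ 1 + (-8) * ξ ^ 2 + (2) * ξ ^ 3 + (5) * ξ ^ 4 + (-3) * ξ ^ 7 + (-1) * ξ ^ 8 + (6) * ξ ^ 9 + (-1) * ξ ^ 10 + (-2) * ξ ^ 11 + (2) * ξ ^ 14 + (-2) * ξ ^ 15 + (-1) * ξ ^ 16 + (2) * ξ ^ 17 + (-1) * ξ ^ 19 + (1) * ξ ^ 20) * hs + ((1) * ξ ^ 0 + (3) * ξ ^ 2 + (3) * ξ ^ 3) * h3
  have e110 : Y 1 * t * Y 0 = - t ^ 1 * Y 0 * t ^ 2 - t ^ 1 * Y 0 * t ^ 3 - t ^ 4 * Y 0 * t ^ 2 - t ^ 4 * Y 0 * t ^ 3 + t ^ 2 * Y 0 * t ^ 1 + t ^ 2 * Y 0 * t ^ 4 + t ^ 3 * Y 0 * t ^ 1 + t ^ 3 * Y 0 * t ^ 4 + t ^ 2 * Y 1 * t ^ 2 + t ^ 2 * Y 1 * t ^ 3 + t ^ 3 * Y 1 * t ^ 2 + t ^ 3 * Y 1 * t ^ 3 + t ^ 1 * Y 2 * t ^ 1 - t ^ 1 * Y 2 * t ^ 4 - t ^ 4 * Y 2 * t ^ 1 + t ^ 4 * Y 2 * t ^ 4 := by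
    rw [h.r110]; noncomm_ring
  have f110 : Pr t ξ ((Y 1 * t ^ 1) u) = 0 := by
    have hh : (Y 1 * t ^ 1) u = (Y 1 * t * Y 0) p + (ξ + ξ ^ 4) • (t ^ 0 * Y 1 * t ^ 1) p := by
      rw [hu, map_add, map_smul]; simp only [pow_zero, one_mul, pow_one]; rfl
    rw [hh, e110]
    simp only [LinearMap.add_apply, LinearMap.sub_apply, LinearMap.neg_apply, map_add, map_sub, map_neg, map_smul, L0, L1, L2, neg_mul]
    match_scalars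
    linear_combination ((-3) * ξ ^ 0 + (3) * ξ ^ 1 + (-5) * ξ ^ 2 + (1) * ξ ^ 3 + (3) * ξ ^ 4 + (-4) * ξ ^ 5 + (-1) * ξ ^ 6 + (1) * ξ ^ 7 + (-2) * ξ ^ 8 + (1) * ξ ^ 9 + (-1) * ξ ^ 10 + (-2) * ξ ^ 13 + (-1) * ξ ^ 15 + (1) * ξ ^ 16 + (-1) * ξ ^ 17 + (1) * ξ ^ 19) * hs + ((1) * ξ ^ 0 + (1) * ξ ^ 2 + (1) * ξ ^ 3) * h3
  have e120 : Y 1 * t ^ 2 * Y 0 = t ^ 1 * Y 0 * t ^ 1 + t ^ 1 * Y 0 * t ^ 4 + t ^ 4 * Y 0 * t ^ 1 + t ^ 4 * Y 0 * t ^ 4 - t ^ 1 * Y 1 * t ^ 2 - t ^ 1 * Y 1 * t ^ 3 - t ^ 4 * Y 1 * t ^ 2 - t ^ 4 * Y 1 * t ^ 3 + t ^ 2 * Y 1 * t ^ 1 + t ^ 2 * Y 1 * t ^ 4 + t ^ 3 * Y 1 * t ^ 1 + t ^ 3 * Y 1 * t ^ 4 + t ^ 2 * Y 2 * t ^ 2 - t ^ 2 * Y 2 * t ^ 3 - t ^ 3 * Y 2 * t ^ 2 + t ^ 3 * Y 2 * t ^ 3 := by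
    rw [h.r120]; noncomm_ring
  have f120 : Pr t ξ ((Y 1 * t ^ 2) u) = 0 := by
    have hh : (Y 1 * t ^ 2) u = (Y 1 * t ^ 2 * Y 0) p + (ξ + ξ ^ 4) • (t ^ 0 * Y 1 * t ^ 2) p := by
      rw [hu, map_add, map_smul]; simp only [pow_zero, one_mul, pow_one]; rfl
    rw [hh, e120]
    simp only [LinearMap.add_apply, LinearMap.sub_apply, LinearMap.neg_apply, map_add, map_sub, map_neg, map_smul, L0, L1, L2, neg_mul]
    match_scalars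
    linear_combination ((3) * ξ ^ 2 + (-5) * ξ ^ 4 + (4) * ξ ^ 5 + (-1) * ξ ^ 6 + (-2) * ξ ^ 7 + (3) * ξ ^ 8 + (1) * ξ ^ 9 + (-2) * ξ ^ 10 + (-2) * ξ ^ 11 + (2) * ξ ^ 12 + (2) * ξ ^ 13 + (-1) * ξ ^ 15 + (-2) * ξ ^ 16 + (3) * ξ ^ 17 + (-2) * ξ ^ 19 + (1) * ξ ^ 20) * hs + ((-1) * ξ ^ 2 + (-1) * ξ ^ 3) * h3
  have e210 : Y 2 * t * Y 0 = t ^ 2 * Y 0 * t ^ 2 + t ^ 2 * Y 0 * t ^ 3 - t ^ 3 * Y 0 * t ^ 2 - t ^ 3 * Y 0 * t ^ 3 - t ^ 1 * Y 1 * t ^ 1 - t ^ 1 * Y 1 * t ^ 4 + t ^ 4 * Y 1 * t ^ 1 + t ^ 4 * Y 1 * t ^ 4 - t ^ 1 * Y 2 * t ^ 2 + t ^ 1 * Y 2 * t ^ 3 - t ^ 4 * Y 2 * t ^ 2 + t ^ 4 * Y 2 * t ^ 3 + t ^ 2 * Y 2 * t ^ 1 - t ^ 2 * Y 2 * t ^ 4 + t ^ 3 * Y 2 * t ^ 1 - t ^ 3 * Y 2 * t ^ 4 := by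
    rw [h.r210]; noncomm_ring
  have f210 : Pr t ξ ((Y 2 * t ^ 1) u) = 0 := by
    have hh : (Y 2 * t ^ 1) u = (Y 2 * t * Y 0) p + (ξ + ξ ^ 4) • (t ^ 0 * Y 2 * t ^ 1) p := by
      rw [hu, map_add, map_smul]; simp only [pow_zero, one_mul, pow_one]; rfl
    rw [hh, e210]
    simp only [LinearMap.add_apply, LinearMap.sub_apply, LinearMap.neg_apply, map_add, map_sub, map_neg, map_smul, L0, L1, L2, neg_mul]
    match_scalars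
    linear_combination ((-6) * ξ ^ 0 + (-6) * ξ ^ 1 + (9) * ξ ^ 2 + (-5) * ξ ^ 3 + (6) * ξ ^ 4 + (-2) * ξ ^ 5 + (-3) * ξ ^ 6 + (4) * ξ ^ 7 + (-5) * ξ ^ 8 + (4) * ξ ^ 9 + (-1) * ξ ^ 10 + (-1) * ξ ^ 11 + (-1) * ξ ^ 12 + (4) * ξ ^ 14 + (-2) * ξ ^ 15 + (-1) * ξ ^ 16 + (1) * ξ ^ 19 + (-1) * ξ ^ 20) * hs + ((2) * ξ ^ 0 + (4) * ξ ^ 1 + (1) * ξ ^ 2 + (3) * ξ ^ 3) * h3
  have e220 : Y 2 * t ^ 2 * Y 0 = t ^ 1 * Y 0 * t ^ 2 + t ^ 1 * Y 0 * t ^ 3 - t ^ 4 * Y 0 * t ^ 2 - t ^ 4 * Y 0 * t ^ 3 - t ^ 2 * Y 0 * t ^ 1 - t ^ 2 * Y 0 * t ^ 4 + t ^ 3 * Y 0 * t ^ 1 + t ^ 3 * Y 0 * t ^ 4 - t ^ 2 * Y 1 * t ^ 2 - t ^ 2 * Y 1 * t ^ 3 + t ^ 3 * Y 1 * t ^ 2 + t ^ 3 * Y 1 * t ^ 3 - t ^ 1 * Y 2 * t ^ 1 + t ^ 1 * Y 2 * t ^ 4 - t ^ 4 * Y 2 * t ^ 1 + t ^ 4 * Y 2 * t ^ 4 := by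
    rw [h.r220]; noncomm_ring
  have f220 : Pr t ξ ((Y 2 * t ^ 2) u) = 0 := by
    have hh : (Y 2 * t ^ 2) u = (Y 2 * t ^ 2 * Y 0) p + (ξ + ξ ^ 4) • (t ^ 0 * Y 2 * t ^ 2) p := by
      rw [hu, map_add, map_smul]; simp only [pow_zero, one_mul, pow_one]; rfl
    rw [hh, e220]
    simp only [LinearMap.add_apply, LinearMap.sub_apply, LinearMap.neg_apply, map_add, map_sub, map_neg, map_smul, L0, L1, L2, neg_mul]
    match_scalars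
    linear_combination ((3) * ξ ^ 0 + (3) * ξ ^ 1 + (1) * ξ ^ 2 + (-8) * ξ ^ 3 + (2) * ξ ^ 4 + (4) * ξ ^ 5 + (-1) * ξ ^ 6 + (-1) * ξ ^ 7 + (-2) * ξ ^ 8 + (1) * ξ ^ 9 + (1) * ξ ^ 10 + (2) * ξ ^ 11 + (-2) * ξ ^ 12 + (-2) * ξ ^ 13 + (4) * ξ ^ 14 + (-3) * ξ ^ 15 + (1) * ξ ^ 16 + (1) * ξ ^ 17 + (-2) * ξ ^ 18 + (1) * ξ ^ 19) * hs + ((-1) * ξ ^ 0 + (-2) * ξ ^ 1 + (-2) * ξ ^ 2) * h3
  have f00 : Pr t ξ (Y 0 u) = 0 := by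
    have hh : Y 0 u = (Y 0 * Y 0) p + (ξ + ξ ^ 4) • (t ^ 0 * Y 0 * t ^ 0) p := by
      rw [hu, map_add, map_smul]; simp only [pow_zero, one_mul, mul_one]; rfl
    have e000 : (Y 0 * Y 0) p = (16 : F) • p + (16 : F) • s p - (4 : F) • (t ^ 0 * Y 1 * t ^ 0) p := by
      rw [h.r000, pow_zero, one_mul, mul_one]; simp only [LinearMap.add_apply, LinearMap.sub_apply, Module.End.mul_apply]; simp [Module.End.ofNat_apply, ofNat_smul_eq_nsmul]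
    rw [hh, e000, hswp]
    simp only [map_add, map_sub, map_smul, L0, L1, hPp]
    match_scalars
    linear_combination ((4) * ξ ^ 0 + (4) * ξ ^ 1 + (-2) * ξ ^ 3 + (2) * ξ ^ 4) * hs + ((12) * ξ ^ 0 + (-2) * ξ ^ 2 + (-2) * ξ ^ 3) * h3
  have f10 : Pr t ξ (Y 1 u) = 0 := by
    have hh : Y 1 u = (Y 1 * Y 0) p + (ξ + ξ ^ 4) • (t ^ 0 * Y 1 * t ^ 0) p := by
      rw [hu, map_add, map_smul]; simp only [pow_zero, one_mul, mul_one]; rfl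
    have e000 : (Y 1 * Y 0) p = - ((4 : F) • (t ^ 0 * Y 0 * t ^ 0) p) - (4 : F) • (t ^ 0 * Y 1 * t ^ 0) p := by
      rw [h.r100, pow_zero, one_mul, mul_one, one_mul, mul_one]; simp only [LinearMap.add_apply, LinearMap.sub_apply, LinearMap.neg_apply, Module.End.mul_apply]; simp [Module.End.ofNat_apply, ofNat_smul_eq_nsmul]
    rw [hh, e000]
    simp only [map_add, map_sub, map_neg, map_smul, L0, L1]
    match_scalars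
    linear_combination ((2) * ξ ^ 0 + (-4) * ξ ^ 1 + (2) * ξ ^ 3 + (-2) * ξ ^ 4) * hs + ((2) * ξ ^ 0) * h3
  have f20 : Pr t ξ (Y 2 u) = 0 := by
    have e1 : Y 2 u = - Y 2 u := by
      conv_lhs => rw [← hsu]
      exact hY2s u
    have e2 : (2 : F) • Y 2 u = 0 := by
      rw [two_smul]
      nth_rewrite 1 [e1]
      exact neg_add_cancel _
    rw [(smul_eq_zero.1 e2).resolve_left h22, map_zero]
  have ht3s : t ^ 3 * s = s * t ^ 2 := by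
    have e1 : t ^ 2 * s = s * t ^ 8 := by
      rw [pow_two, mul_assoc, hts, ← mul_assoc, hts, mul_assoc, ← pow_add]
    have e2 : t ^ 3 * s = s * t ^ 12 := by
      rw [pow_succ' t 2, mul_assoc, e1, ← mul_assoc, hts, mul_assoc, ← pow_add]
    have e3 : t ^ 12 = t ^ 2 := by
      rw [show 12 = 5 * 2 + 2 by norm_num, pow_add, pow_mul, h.t5, one_pow, one_mul]
    rw [e2, e3]
  have ht4s : t ^ 4 * s = s * t ^ 1 := by rw [← h.st, pow_one]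
  have hflip : ∀ (j : Fin 3) (ε : F) (hj : ∀ m, Y j (s m) = ε • Y j m) (m m' : ℕ)
      (hm : t ^ m * s = s * t ^ m'), (Y j * t ^ m) u = ε • (Y j * t ^ m') u := by
    intro j ε hj m m' hm
    have e1 : (Y j * t ^ m) u = Y j ((t ^ m * s) u) := by
      show Y j ((t ^ m) u) = Y j ((t ^ m) (s u))
      rw [hsu]
    rw [e1, hm]
    exact hj _
  have hk0 : ∀ (m m' : ℕ) (hm : t ^ m * s = s * t ^ m'), (Y 0 * t ^ m) u = (1 : F) • (Y 0 * t ^ m') u :=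
    hflip 0 1 (fun m => by rw [one_smul, hY0s])
  have hk1 : ∀ (m m' : ℕ) (hm : t ^ m * s = s * t ^ m'), (Y 1 * t ^ m) u = (1 : F) • (Y 1 * t ^ m') u :=
    hflip 1 1 (fun m => by rw [one_smul, hY1s])
  have hk2 : ∀ (m m' : ℕ) (hm : t ^ m * s = s * t ^ m'), (Y 2 * t ^ m) u = (-1 : F) • (Y 2 * t ^ m') u :=
    hflip 2 (-1) (fun m => by rw [neg_one_smul, hY2s])
  have key : ∀ (j : Fin 3) (m : ℕ), m < 5 → Pr t ξ ((Y j * t ^ m) u) = 0 := by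
    intro j m hm
    interval_cases m
    · rw [pow_zero, mul_one]
      fin_cases j
      · exact f00
      · exact f10
      · exact f20
    · fin_cases j
      · exact f010
      · exact f110
      · exact f210
    · fin_cases j
      · exact f020
      · exact f120
      · exact f220
    · fin_cases j
      · show Pr t ξ ((Y 0 * t ^ 3) u) = 0
        rw [hk0 3 2 ht3s, map_smul, f020, smul_zero]
      · show Pr t ξ ((Y 1 * t ^ 3) u) = 0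
        rw [hk1 3 2 ht3s, map_smul, f120, smul_zero]
      · show Pr t ξ ((Y 2 * t ^ 3) u) = 0
        rw [hk2 3 2 ht3s, map_smul, f220, smul_zero]
    · fin_cases j
      · show Pr t ξ ((Y 0 * t ^ 4) u) = 0
        rw [hk0 4 1 ht4s, map_smul, f010, smul_zero]
      · show Pr t ξ ((Y 1 * t ^ 4) u) = 0
        rw [hk1 4 1 ht4s, map_smul, f110, smul_zero]
      · show Pr t ξ ((Y 2 * t ^ 4) u) = 0
        rw [hk2 4 1 ht4s, map_smul, f210, smul_zero]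
  have hPu : Pr t ξ u = 0 := by
    rw [hu, map_add, map_smul, hPp, hp, map_add, hY0s, map_add, h0]
    match_scalars
    linear_combination (ξ + ξ ^ 4) * h3
  by_contra hne
  have hune : u ≠ 0 := by
    intro h0u
    apply hne
    rw [neg_smul, eq_neg_iff_add_eq_zero, ← hp, ← hu, h0u]
  have hN := hgen u hune (LinearMap.ker (Pr t ξ)) ?_ ?_
  · have : w ∈ LinearMap.ker (Pr t ξ) := by rw [hN]; trivial
    rw [LinearMap.mem_ker, hPw] at this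
    exact hw this
  · intro k e
    have hse : (s ^ e) u = u := by
      induction e with
      | zero => simp
      | succ n ih =>
        have : (s ^ (n + 1)) u = (s ^ n) (s u) := by rw [pow_succ]; rfl
        rw [this, hsu, ih]
    rw [LinearMap.mem_ker]
    show Pr t ξ ((t ^ k) ((s ^ e) u)) = 0
    rw [hse, Pr_tk h.t5 ξ hξ, hPu, smul_zero]
  · intro k m j
    rw [LinearMap.mem_ker]
    show Pr t ξ ((t ^ k) (Y j ((t ^ m) u))) = 0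
    have hmm : t ^ m = t ^ (m % 5) := by
      conv_lhs => rw [← Nat.div_add_mod m 5, pow_add, pow_mul, h.t5, one_pow, one_mul]
    rw [Pr_tk h.t5 ξ hξ, hmm]
    have := key j (m % 5) (Nat.mod_lt _ (by norm_num))
    have e2 : (Y j * t ^ (m % 5)) u = Y j ((t ^ (m % 5)) u) := rfl
    rw [e2] at this
    rw [this, smul_zero]

end Pool.Agent.Helper79.TL.A6
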